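import Pool.Agent.MP_89edc2_al.H5.Fin
import Pool.Agent.MP_89edc2_al.H5.Adj
import Pool.Agent.MP_89edc2_al.H5.Ah
import Pool.Agent.MP_89edc2_al.H5.Cox
import Pool.Agent.MP_89edc2_al.H5.Ext
import Pool.Agent.MP_89edc2_al.H5.Gate
import Pool.Agent.MP_89edc2_al.H5.Gen
import Pool.Agent.MP_89edc2_al.H5.Gfp
import Pool.Agent.MP_89edc2_al.H5.Inv
import Pool.Agent.MP_89edc2_al.H5.Mec
import Pool.Agent.MP_89edc2_al.H5.Nf
import Pool.Agent.MP_89edc2_al.H5.Sit
import Pool.Agent.MP_89edc2_al.H5.Sym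
import Pool.Agent.MP_89edc2_al.H5.Tr
import Pool.Agent.MP_89edc2_al.H5.Vfp

namespace Pool.Agent.Results.MP_89edc2_al.AcylHyp

open Pool.Agent.MP_89edc2_al.H5

/-- There is a finitely presented acylindrically hyperbolic group of non-uniform exponential
growth: it acts by automorphisms on a connected graph with thin geodesic triangles, the action is
acylindrical, and a free group of rank two acts through it with an undistorted orbit. -/
theorem result :
    ∃ (G : Type) (_ : Group G), Group.IsFinitelyPresented G ∧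
      (∃ (P : Type) (Y : SimpleGraph P) (_ : MulAction G P), Y.Connected ∧
        (∀ (g : G) (x y : P), Y.Adj x y → Y.Adj (g • x) (g • y)) ∧
        (∃ δ : ℕ, ∀ (x y z : P) (p : Y.Walk x y) (q : Y.Walk y z) (r : Y.Walk x z),
          p.length = Y.dist x y → q.length = Y.dist y z → r.length = Y.dist x z →
          ∀ u ∈ p.support, ∃ v : P, (v ∈ q.support ∨ v ∈ r.support) ∧ Y.dist u v ≤ δ) ∧
        (∀ ε : ℕ, ∃ R N : ℕ, ∀ x y : P, R ≤ Y.dist x y →
          Set.encard {g : G | Y.dist x (g • x) ≤ ε ∧ Y.dist y (g • y) ≤ ε} ≤ (N : ℕ∞)) ∧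
        ∃ (φ : FreeGroup (Fin 2) →* G) (x : P) (C : ℕ),
          ∀ w : FreeGroup (Fin 2), w.norm ≤ C * Y.dist x (φ w • x) + C) ∧
      (∃ S : Finset G, Subgroup.closure (S : Set G) = ⊤ ∧ ∃ c : ℝ, 1 < c ∧ ∀ k : ℕ,
        c ^ k ≤ (Set.ncard {g : G | ∃ l : List G, l.length ≤ k ∧
          (∀ x ∈ l, x ∈ S ∨ x⁻¹ ∈ S) ∧ l.prod = g} : ℝ)) ∧
      ∀ c : ℝ, 1 < c → ∃ S : Finset G, Subgroup.closure (S : Set G) = ⊤ ∧ ∃ k : ℕ,
        (Set.ncard {g : G | ∃ l : List G, l.length ≤ k ∧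
          (∀ x ∈ l, x ∈ S ∨ x⁻¹ ∈ S) ∧ l.prod = g} : ℝ) < c ^ k :=
  have vfp := vfp_main (ext_main sym_main) tr_main (nf_main sym_main tr_main)
  fin_main vfp cox_main gate_main ah_main gfp_main (inv_main sym_main) (gen_main sym_main)
    (sit_main tr_main vfp (adj_main tr_main)) (mec_main sym_main tr_main (adj_main tr_main))

end Pool.Agent.Results.MP_89edc2_al.AcylHyp
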