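import Pool.Agent.MP_89edc2_al.K76.Fin
import Pool.Agent.MP_89edc2_al.K76.Cnt
import Pool.Agent.MP_89edc2_al.K76.Dbl
import Pool.Agent.MP_89edc2_al.K76.Emb
import Pool.Agent.MP_89edc2_al.K76.Fpa
import Pool.Agent.MP_89edc2_al.K76.Fpb
import Pool.Agent.MP_89edc2_al.K76.Gen
import Pool.Agent.MP_89edc2_al.K76.Inv
import Pool.Agent.MP_89edc2_al.K76.Mat
import Pool.Agent.MP_89edc2_al.K76.Rng
import Pool.Agent.MP_89edc2_al.K76.Step
import Pool.Agent.MP_89edc2_al.K76.Ta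
import Pool.Agent.MP_89edc2_al.K76.Tb
import Pool.Agent.MP_89edc2_al.K76.Tc
import Pool.Agent.MP_89edc2_al.K76.Wt

universe u

namespace Pool.Agent.Results.MP_89edc2_al.Kazhdan

open Pool.Agent.MP_89edc2_al.K76

/-- Every finitely presented group embeds in a finitely presented group with property (T) and
non-uniform exponential growth. -/
theorem result (H : Type) [Group H] (hH : Group.IsFinitelyPresented H) :
    ∃ (G : Type) (_ : Group G) (e : H →* G), Function.Injective e ∧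
      Group.IsFinitelyPresented G ∧
      (∃ (Q : Finset G) (ε : ℝ), 0 < ε ∧ ∀ (E : Type u) [NormedAddCommGroup E]
        [InnerProductSpace ℂ E] [CompleteSpace E] (π : G →* (E ≃ₗᵢ[ℂ] E)) (v : E), ‖v‖ = 1 →
        (∀ g ∈ Q, ‖π g v - v‖ < ε) → ∃ w : E, w ≠ 0 ∧ ∀ g, π g w = w) ∧
      (∃ S : Finset G, Subgroup.closure (S : Set G) = ⊤ ∧ ∃ c : ℝ, 1 < c ∧ ∀ k : ℕ,
        c ^ k ≤ (Set.ncard {g : G | ∃ l : List G, l.length ≤ k ∧
          (∀ x ∈ l, x ∈ S ∨ x⁻¹ ∈ S) ∧ l.prod = g} : ℝ)) ∧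
      ∀ c : ℝ, 1 < c → ∃ S : Finset G, Subgroup.closure (S : Set G) = ⊤ ∧ ∃ k : ℕ,
        (Set.ncard {g : G | ∃ l : List G, l.length ≤ k ∧
          (∀ x ∈ l, x ∈ S ∨ x⁻¹ ∈ S) ∧ l.prod = g} : ℝ) < c ^ k :=
  fin_main (fpb_main (fpa_main step_main)) dbl_main w_main gen_main inv_main cnt_main
    (tc_main ta_main tb_main) ring_main mat_main emb_main exp_main H hH

end Pool.Agent.Results.MP_89edc2_al.Kazhdan
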