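import Pool.Agent.MP_89edc2_al.R3.Fin
import Pool.Agent.MP_89edc2_al.R3.ShA
import Pool.Agent.MP_89edc2_al.R3.ShB
import Pool.Agent.MP_89edc2_al.R3.ShC
import Pool.Agent.MP_89edc2_al.R3.SmA
import Pool.Agent.MP_89edc2_al.R3.SmB
import Pool.Agent.MP_89edc2_al.R3.SmC
import Pool.Agent.MP_89edc2_al.R3.Trc
import Pool.Agent.MP_89edc2_al.R3.Bas
import Pool.Agent.MP_89edc2_al.R3.Alt
import Pool.Agent.MP_89edc2_al.R3.Fpb
import Pool.Agent.MP_89edc2_al.R3.Nerve
import Pool.Agent.MP_89edc2_al.R3.Cv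
import Pool.Agent.MP_89edc2_al.R3.Fpx
import Pool.Agent.MP_89edc2_al.R3.Rnd
import Pool.Agent.MP_89edc2_al.R3.Mth
import Pool.Agent.MP_89edc2_al.R3.Xd
import Pool.Agent.MP_89edc2_al.R3.Hh
import Pool.Agent.MP_89edc2_al.R3.Rz
import Pool.Agent.MP_89edc2_al.R3.Step3
import Pool.Agent.MP_89edc2_al.R3.Dbl
import Pool.Agent.MP_89edc2_al.R3.Gen
import Pool.Agent.MP_89edc2_al.R3.Pres
import Pool.Agent.MP_89edc2_al.R3.Ext
import Pool.Agent.MP_89edc2_al.R3.Act1
import Pool.Agent.MP_89edc2_al.R3.Act2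
import Pool.Agent.MP_89edc2_al.R3.Lam
import Pool.Agent.MP_89edc2_al.R3.Bh1
import Pool.Agent.MP_89edc2_al.R3.Bh2
import Pool.Agent.MP_89edc2_al.R3.Bh3
import Pool.Agent.MP_89edc2_al.R3.Tree
import Pool.Agent.MP_89edc2_al.R3.Cube
import Pool.Agent.MP_89edc2_al.R3.Same
import Pool.Agent.MP_89edc2_al.R3.For
import Pool.Agent.MP_89edc2_al.R3.Rep
import Pool.Agent.MP_89edc2_al.R3.Rf
import Pool.Agent.MP_89edc2_al.R3.Inv
import Pool.Agent.MP_89edc2_al.R3.Cnt
import Pool.Agent.MP_89edc2_al.R3.Lay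
import Pool.Agent.MP_89edc2_al.R3.Top
import Pool.Agent.MP_89edc2_al.R3.Mec
import Pool.Agent.MP_89edc2_al.R3.Expo

namespace Pool.Agent.Results.MP_89edc2_al.ResFin

open Pool.Agent.MP_89edc2_al.R3

/-- There is a finitely presented residually finite group of non-uniform exponential growth. -/
theorem result :
    ∃ (G : Type) (_ : Group G), Group.IsFinitelyPresented G ∧ Group.ResiduallyFinite G ∧
      (∃ S : Finset G, Subgroup.closure (S : Set G) = ⊤ ∧ ∃ c : ℝ, 1 < c ∧ ∀ k : ℕ,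
        c ^ k ≤ (Set.ncard {g : G | ∃ l : List G, l.length ≤ k ∧
          (∀ x ∈ l, x ∈ S ∨ x⁻¹ ∈ S) ∧ l.prod = g} : ℝ)) ∧
      ∀ c : ℝ, 1 < c → ∃ S : Finset G, Subgroup.closure (S : Set G) = ⊤ ∧ ∃ k : ℕ,
        (Set.ncard {g : G | ∃ l : List G, l.length ≤ k ∧
          (∀ x ∈ l, x ∈ S ∨ x⁻¹ ∈ S) ∧ l.prod = g} : ℝ) < c ^ k :=
  fin_main shA_main shB_main shC_main smA_main smB_main smC_main trc_main bas_main alt_main
    fpb_main nerve_main cv_main fpx_main rnd_main m3_main xd_main hh_main r0_main step3_main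
    dbl_main gen_main pres_main ext_main act1_main act2_main lam_main bh1_main bh2_main bh3_main
    tree_main cube_main same_main for_main rep_main rf_main inv_main cnt_main lay_main top_main
    mec_main exp_main

end Pool.Agent.Results.MP_89edc2_al.ResFin
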